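import Mathlib
import Pool.Agent.Helper283.ThV.PLR

/-! # Boomerang subgroups of Thompson's group `F` are normal -/

set_option autoImplicit false

namespace Q31.BF

open Pool.Agent.Helper283.PL

theorem conj_sup {s t : ℝ} {P g : Equiv.Perm ℝ} (hP : P ∈ PLH) (hg : g ∈ Sup s t) :
    P * g * P⁻¹ ∈ Sup (P s) (P t) := by
  refine ⟨PLH.mul_mem (PLH.mul_mem hP hg.1) (PLH.inv_mem hP), fun x hx => ?_⟩
  have hx' : P⁻¹ x ≤ s ∨ t ≤ P⁻¹ x := by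
    rcases hx with hx | hx
    · left
      rw [← hP.1.le_iff_le, inv_right]
      exact hx
    · right
      rw [← hP.1.le_iff_le, inv_right]
      exact hx
  rw [Equiv.Perm.mul_apply, Equiv.Perm.mul_apply, hg.2 _ hx', inv_right]

theorem ess_right {u v : ℝ} {g x : Equiv.Perm ℝ} (hg : g ∈ PLH) (hgu : v ≤ g u)
    (hx : x ∈ Sup u v) (huv : u ≤ v) (N : ℕ) : ∀ z, z ≤ v →
      ((x * g) ^ (N + 1)) (((g⁻¹) ^ (N + 1)) z) = x z := by
  have hgi : ∀ z, z ≤ v → g⁻¹ z ≤ u := by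
    intro z hz
    rw [← hg.1.le_iff_le, inv_right]
    exact hz.trans hgu
  induction N with
  | zero =>
    intro z hz
    rw [zero_add, pow_one, pow_one, Equiv.Perm.mul_apply, inv_right]
  | succ N ih =>
    intro z hz
    have e1 : ∀ w, ((x * g) ^ (N + 1 + 1)) w = (x * g) (((x * g) ^ (N + 1)) w) := by
      intro w; rw [pow_succ' (x * g) (N + 1)]; rfl
    have e2 : ((g⁻¹) ^ (N + 1 + 1)) z = ((g⁻¹) ^ (N + 1)) (g⁻¹ z) := by
      rw [pow_succ (g⁻¹) (N + 1)]; rfl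
    rw [e1, e2, ih _ ((hgi z hz).trans huv), hx.2 _ (Or.inl (hgi z hz)), Equiv.Perm.mul_apply,
      inv_right]

theorem ess_left {u v : ℝ} {g x : Equiv.Perm ℝ} (hg : g ∈ PLH) (hgu : g v ≤ u)
    (hx : x ∈ Sup u v) (huv : u ≤ v) (N : ℕ) : ∀ z, u ≤ z →
      ((x * g) ^ (N + 1)) (((g⁻¹) ^ (N + 1)) z) = x z := by
  have hgi : ∀ z, u ≤ z → v ≤ g⁻¹ z := by
    intro z hz
    rw [← hg.1.le_iff_le, inv_right]
    exact hgu.trans hz
  induction N with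
  | zero =>
    intro z hz
    rw [zero_add, pow_one, pow_one, Equiv.Perm.mul_apply, inv_right]
  | succ N ih =>
    intro z hz
    have e1 : ∀ w, ((x * g) ^ (N + 1 + 1)) w = (x * g) (((x * g) ^ (N + 1)) w) := by
      intro w; rw [pow_succ' (x * g) (N + 1)]; rfl
    have e2 : ((g⁻¹) ^ (N + 1 + 1)) z = ((g⁻¹) ^ (N + 1)) (g⁻¹ z) := by
      rw [pow_succ (g⁻¹) (N + 1)]; rfl
    rw [e1, e2, ih _ (huv.trans (hgi z hz)), hx.2 _ (Or.inr (hgi z hz)), Equiv.Perm.mul_apply,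
      inv_right]

/-- a commutator identity -/
theorem comm_id {H : Type*} [Group H] {x₁ x₂ r l : H} (h1 : r * x₂ = x₂ * r) (h2 : l * x₁ = x₁ * l)
    (h3 : l * r = r * l) :
    (x₁ * r) * (x₂ * l) * (x₁ * r)⁻¹ * (x₂ * l)⁻¹ = x₁ * x₂ * x₁⁻¹ * x₂⁻¹ := by
  have e1 : (x₁ * r) * (x₂ * l) = x₁ * x₂ * (r * l) := by
    calc (x₁ * r) * (x₂ * l) = x₁ * (r * x₂) * l := by group
      _ = x₁ * (x₂ * r) * l := by rw [h1]
      _ = _ := by group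
  have e2 : (x₂ * l) * (x₁ * r) = x₂ * x₁ * (r * l) := by
    calc (x₂ * l) * (x₁ * r) = x₂ * (l * x₁) * r := by group
      _ = x₂ * (x₁ * l) * r := by rw [h2]
      _ = x₂ * x₁ * (l * r) := by group
      _ = _ := by rw [h3]
  calc (x₁ * r) * (x₂ * l) * (x₁ * r)⁻¹ * (x₂ * l)⁻¹
      = ((x₁ * r) * (x₂ * l)) * ((x₂ * l) * (x₁ * r))⁻¹ := by group
    _ = (x₁ * x₂ * (r * l)) * (x₂ * x₁ * (r * l))⁻¹ := by rw [e1, e2]
    _ = _ := by group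

theorem pow_mem_mul {H : Type*} [Group H] (Q : Subgroup H) {a b : H} {n m : ℕ} (ha : a ^ n ∈ Q)
    (hb : b ^ m ∈ Q) : a ^ (n * m) ∈ Q ∧ b ^ (n * m) ∈ Q := by
  constructor
  · rw [pow_mul]; exact Q.pow_mem ha m
  · rw [mul_comm, pow_mul]; exact Q.pow_mem hb n

/-- a subgroup which contains a power of every element supported in `[s, t]` contains the
commutators of elements supported in a smaller interval -/
theorem ess_comm {s t u v : ℝ} (hs : Dy s) (ht : Dy t) (hu : Dy u) (hv : Dy v) (h1 : s < u)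
    (h2 : u < v) (h3 : v < t) (Q : Subgroup (Equiv.Perm ℝ))
    (hQ : ∀ γ ∈ Sup s t, ∃ n : ℕ, 1 ≤ n ∧ γ ^ n ∈ Q) {x₁ x₂ : Equiv.Perm ℝ}
    (hx₁ : x₁ ∈ Sup u v) (hx₂ : x₂ ∈ Sup u v) : x₁ * x₂ * x₁⁻¹ * x₂⁻¹ ∈ Q := by
  obtain ⟨g, hg, hgu⟩ := displ_exists_10188 hs ht hu hv h1 h2 h3
  have hX₁ : x₁ ∈ Sup s t := Sup.mono h1.le h3.le hx₁
  have hX₂ : x₂ ∈ Sup s t := Sup.mono h1.le h3.le hx₂
  have key : ∀ x : Equiv.Perm ℝ, x ∈ Sup s t → ∀ g : Equiv.Perm ℝ, g ∈ Sup s t →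
      ∃ N : ℕ, (x * g) ^ (N + 1) * (g⁻¹) ^ (N + 1) ∈ Q := by
    intro x hx g hg
    obtain ⟨n, hn, hn'⟩ := hQ (x * g) ((Sup s t).mul_mem hx hg)
    obtain ⟨m, hm, hm'⟩ := hQ g hg
    have hpos : 1 ≤ n * m := Nat.mul_pos hn hm
    obtain ⟨N, hN⟩ := Nat.exists_eq_add_of_le hpos
    refine ⟨N, ?_⟩
    have := pow_mem_mul Q hn' hm'
    rw [hN, add_comm] at this
    refine Q.mul_mem this.1 ?_
    rw [inv_pow]
    exact Q.inv_mem this.2
  obtain ⟨N, hN⟩ := key x₁ hX₁ g hg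
  obtain ⟨M, hM⟩ := key x₂ hX₂ g⁻¹ ((Sup s t).inv_mem hg)
  have hgi : g⁻¹ v ≤ u := by rw [← hgu, inv_left]
  set y := (x₁ * g) ^ (N + 1) * (g⁻¹) ^ (N + 1) with hy
  set y' := (x₂ * g⁻¹) ^ (M + 1) * (g⁻¹⁻¹) ^ (M + 1) with hy'
  have hyS : y ∈ Sup s t :=
    (Sup s t).mul_mem ((Sup s t).pow_mem ((Sup s t).mul_mem hX₁ hg) _)
      ((Sup s t).pow_mem ((Sup s t).inv_mem hg) _)
  have hyS' : y' ∈ Sup s t :=
    (Sup s t).mul_mem ((Sup s t).pow_mem ((Sup s t).mul_mem hX₂ ((Sup s t).inv_mem hg)) _)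
      ((Sup s t).pow_mem ((Sup s t).inv_mem ((Sup s t).inv_mem hg)) _)
  have hr : x₁⁻¹ * y ∈ Sup v t := by
    refine ⟨PLH.mul_mem (PLH.inv_mem hx₁.1) hyS.1, fun z hz => ?_⟩
    rcases hz with hz | hz
    · have := ess_right hg.1 hgu.ge hx₁ h2.le N z hz
      rw [Equiv.Perm.mul_apply, hy, Equiv.Perm.mul_apply, this, inv_left]
    · rw [Equiv.Perm.mul_apply, hyS.2 z (Or.inr hz)]
      exact ((Sup s t).inv_mem hX₁).2 z (Or.inr hz)
  have hl : x₂⁻¹ * y' ∈ Sup s u := by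
    refine ⟨PLH.mul_mem (PLH.inv_mem hx₂.1) hyS'.1, fun z hz => ?_⟩
    rcases hz with hz | hz
    · rw [Equiv.Perm.mul_apply, hyS'.2 z (Or.inl hz)]
      exact ((Sup s t).inv_mem hX₂).2 z (Or.inl hz)
    · have := ess_left (PLH.inv_mem hg.1) hgi hx₂ h2.le M z hz
      rw [Equiv.Perm.mul_apply, hy', Equiv.Perm.mul_apply, this, inv_left]
  have e := comm_id (x₁ := x₁) (x₂ := x₂) (r := x₁⁻¹ * y) (l := x₂⁻¹ * y')
    (Sup.comm le_rfl hx₂ hr).symm (Sup.comm le_rfl hl hx₁) (Sup.comm h2.le hl hr)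
  rw [mul_inv_cancel_left, mul_inv_cancel_left] at e
  rw [← e]
  exact Q.mul_mem (Q.mul_mem (Q.mul_mem hN hM) (Q.inv_mem hN)) (Q.inv_mem hM)

/-- the projection of `D ∩ (T × S)` to `S` -/
def proj (D S T : Subgroup (Equiv.Perm ℝ)) (hc : ∀ a ∈ S, ∀ b ∈ T, a * b = b * a) :
    Subgroup (Equiv.Perm ℝ) where
  carrier := {h | h ∈ S ∧ ∃ k ∈ T, k * h ∈ D}
  mul_mem' := by
    rintro a b ⟨ha, k, hk, hka⟩ ⟨hb, l, hl, hlb⟩
    refine ⟨S.mul_mem ha hb, k * l, T.mul_mem hk hl, ?_⟩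
    have : k * l * (a * b) = (k * a) * (l * b) := by
      calc k * l * (a * b) = k * (l * a) * b := by group
        _ = k * (a * l) * b := by rw [hc a ha l hl]
        _ = _ := by group
    rw [this]
    exact D.mul_mem hka hlb
  one_mem' := ⟨S.one_mem, 1, T.one_mem, by rw [mul_one]; exact D.one_mem⟩
  inv_mem' := by
    rintro a ⟨ha, k, hk, hka⟩
    refine ⟨S.inv_mem ha, k⁻¹, T.inv_mem hk, ?_⟩
    have : k⁻¹ * a⁻¹ = (k * a)⁻¹ := by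
      rw [← mul_inv_rev, hc a ha k hk]
    rw [this]
    exact D.inv_mem hka

theorem main_perm (D : Subgroup (Equiv.Perm ℝ)) (hD : D ≤ Sup 0 1)
    (hP : ∀ γ ∈ Sup 0 1, ∀ a ∈ D, ∃ n : ℕ, 1 ≤ n ∧ (γ ^ n)⁻¹ * a * γ ^ n ∈ D)
    (hN : ∀ γ ∈ Sup 0 1, ∀ b ∈ Sup 0 1, b ∉ D → ∃ n : ℕ, 1 ≤ n ∧ (γ ^ n)⁻¹ * b * γ ^ n ∉ D) :
    ∀ g ∈ Sup 0 1, ∀ x ∈ D, g * x * g⁻¹ ∈ D := by
  by_cases hne : D = ⊥
  · intro g _ x hx
    rw [hne, Subgroup.mem_bot] at hx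
    rw [hx, mul_one, mul_inv_cancel]
    exact D.one_mem
  -- an element moving a point to the right
  obtain ⟨δ, hδ, x0, hx0⟩ : ∃ δ ∈ D, ∃ x0 : ℝ, x0 < δ x0 := by
    obtain ⟨δ, hδ, h1⟩ := (Subgroup.ne_bot_iff_exists_ne_one).1 hne |>.elim
      (fun a ha => (⟨(a : Equiv.Perm ℝ), a.2, fun h => ha (Subtype.ext h)⟩ :
        ∃ δ : Equiv.Perm ℝ, δ ∈ D ∧ δ ≠ 1))
    obtain ⟨x0, hx0⟩ : ∃ x0 : ℝ, δ x0 ≠ x0 := by
      by_contra hc
      push Not at hc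
      exact h1 (Equiv.ext hc)
    rcases lt_or_gt_of_ne hx0 with h | h
    · refine ⟨δ⁻¹, D.inv_mem hδ, x0, ?_⟩
      have hm := (PLH.inv_mem (hD hδ).1).1 h
      rwa [inv_left] at hm
    · exact ⟨δ, hδ, x0, h⟩
  have hδS := hD hδ
  have hx0p : 0 < x0 := by
    by_contra hc
    rw [hδS.2 x0 (Or.inl (not_lt.1 hc))] at hx0
    exact lt_irrefl _ hx0
  have hx01 : x0 < 1 := by
    by_contra hc
    rw [hδS.2 x0 (Or.inr (not_lt.1 hc))] at hx0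
    exact lt_irrefl _ hx0
  have hδx1 : δ x0 < 1 := by
    have := hδS.1.1 hx01
    rwa [hδS.2 1 (Or.inr le_rfl)] at this
  obtain ⟨s, hs, hs1, hs2⟩ := Dy.exists_between hx0
  obtain ⟨t, ht, ht1, ht2⟩ := Dy.exists_between hs2
  have htδ : t < δ s := ht2.trans (hδS.1.1 hs1)
  have hδt : δ⁻¹ t < s := by
    have := (PLH.inv_mem hδS.1).1 htδ
    rwa [inv_left] at this
  have h0s : (0 : ℝ) ≤ s := by linarith
  have ht1' : t ≤ 1 := by linarith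
  have hc1 : ∀ a ∈ Sup s t, ∀ b ∈ Sup (δ⁻¹ s) (δ⁻¹ t), a * b = b * a := fun a ha b hb =>
    (Sup.comm hδt.le hb ha).symm
  have hc2 : ∀ a ∈ Sup s t, ∀ b ∈ Sup (δ s) (δ t), a * b = b * a := fun a ha b hb =>
    Sup.comm htδ.le ha hb
  set Q₁ := proj D (Sup s t) (Sup (δ⁻¹ s) (δ⁻¹ t)) hc1 with hQ₁
  set Q₂ := proj D (Sup s t) (Sup (δ s) (δ t)) hc2 with hQ₂
  have hE₁ : ∀ γ ∈ Sup s t, ∃ n : ℕ, 1 ≤ n ∧ γ ^ n ∈ Q₁ := by
    intro γ hγ
    obtain ⟨n, hn, hmem⟩ := hP γ (Sup.mono h0s ht1' hγ) δ hδ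
    refine ⟨n, hn, (Sup s t).pow_mem hγ n, δ⁻¹ * (γ ^ n)⁻¹ * δ⁻¹⁻¹,
      conj_sup (PLH.inv_mem hδS.1) ((Sup s t).inv_mem ((Sup s t).pow_mem hγ n)), ?_⟩
    have : δ⁻¹ * (γ ^ n)⁻¹ * δ⁻¹⁻¹ * γ ^ n = δ⁻¹ * ((γ ^ n)⁻¹ * δ * γ ^ n) := by group
    rw [this]
    exact D.mul_mem (D.inv_mem hδ) hmem
  have hE₂ : ∀ γ ∈ Sup s t, ∃ n : ℕ, 1 ≤ n ∧ γ ^ n ∈ Q₂ := by
    intro γ hγ
    obtain ⟨n, hn, hmem⟩ := hP γ (Sup.mono h0s ht1' hγ) δ⁻¹ (D.inv_mem hδ)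
    refine ⟨n, hn, (Sup s t).pow_mem hγ n, δ * (γ ^ n)⁻¹ * δ⁻¹,
      conj_sup hδS.1 ((Sup s t).inv_mem ((Sup s t).pow_mem hγ n)), ?_⟩
    have : δ * (γ ^ n)⁻¹ * δ⁻¹ * γ ^ n = δ * ((γ ^ n)⁻¹ * δ⁻¹ * γ ^ n) := by group
    rw [this]
    exact D.mul_mem hδ hmem
  -- commutators of elements of `Q₁` and `Q₂` lie in `D`
  have hcomm : ∀ c ∈ Q₁, ∀ d ∈ Q₂, c * d * c⁻¹ * d⁻¹ ∈ D := by
    rintro c ⟨hc, k, hk, hkc⟩ d ⟨hd, l, hl, hld⟩
    have e := comm_id (x₁ := c) (x₂ := d) (r := k) (l := l) (hc1 d hd k hk).symm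
      (hc2 c hc l hl).symm (Sup.comm ((hδt.trans ht1).trans htδ).le hk hl).symm
    have e1 : c * k = k * c := hc1 c hc k hk
    have e2 : d * l = l * d := hc2 d hd l hl
    rw [← e, e1, e2]
    exact D.mul_mem (D.mul_mem (D.mul_mem hkc hld) (D.inv_mem hkc)) (D.inv_mem hld)
  -- nested dyadic intervals
  obtain ⟨u0, hu0, hu0a, hu0b⟩ := Dy.exists_between ht1
  obtain ⟨u1, hu1, hu1a, hu1b⟩ := Dy.exists_between hu0b
  obtain ⟨u2, hu2, hu2a, hu2b⟩ := Dy.exists_between hu1b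
  obtain ⟨v2, hv2, hv2a, hv2b⟩ := Dy.exists_between hu2b
  obtain ⟨v1, hv1, hv1a, hv1b⟩ := Dy.exists_between hv2b
  obtain ⟨v0, hv0, hv0a, hv0b⟩ := Dy.exists_between hv1b
  have hcore : ∀ g ∈ Sup u2 v2, g ∈ D := by
    intro g hg
    obtain ⟨a, ha, c, hc, hac⟩ := comm_Sup hu1 hv1 (ε := min (u2 - u1) (v1 - v2))
      (lt_min (by linarith) (by linarith)) (g := g)
      (Sup.mono (by have := min_le_left (u2 - u1) (v1 - v2); linarith)
        (by have := min_le_right (u2 - u1) (v1 - v2); linarith) hg)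
    have hsub : ∀ Q : Subgroup (Equiv.Perm ℝ), (∀ γ ∈ Sup s t, ∃ n : ℕ, 1 ≤ n ∧ γ ^ n ∈ Q) →
        ∀ b ∈ Sup u1 v1, b ∈ Q := by
      intro Q hQ b hb
      obtain ⟨a', ha', c', hc', hac'⟩ := comm_Sup hu0 hv0 (ε := min (u1 - u0) (v0 - v1))
        (lt_min (by linarith) (by linarith)) (g := b)
        (Sup.mono (by have := min_le_left (u1 - u0) (v0 - v1); linarith)
          (by have := min_le_right (u1 - u0) (v0 - v1); linarith) hb)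
      have := ess_comm hs ht hu0 hv0 hu0a (by linarith) hv0b Q hQ
        ((Sup u0 v0).inv_mem ha') hc'
      rw [inv_inv] at this
      rw [hac']
      exact this
    have := hcomm a⁻¹ (Q₁.inv_mem (hsub Q₁ hE₁ a ha)) c (hsub Q₂ hE₂ c hc)
    rw [inv_inv] at this
    rw [hac]
    exact this
  -- spreading
  have hspread : ∀ ε : ℝ, 0 < ε → ∀ b ∈ Sup ε (1 - ε), b ∈ D := by
    intro ε hε b hb
    by_contra hbD
    have hm : 0 < min ε (min u2 (1 - v2)) := lt_min hε (lt_min (by linarith) (by linarith))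
    obtain ⟨e, he, he0, he1⟩ := Dy.exists_between hm
    have heε : e < ε := he1.trans_le (min_le_left _ _)
    have heu : e < u2 := he1.trans_le ((min_le_right _ _).trans (min_le_left _ _))
    have hev : e < 1 - v2 := he1.trans_le ((min_le_right _ _).trans (min_le_right _ _))
    obtain ⟨p, hp, hp1, hp2⟩ := Dy.exists_between hv2a
    obtain ⟨q, hq, hq1, hq2⟩ := Dy.exists_between hp2
    have hb' : b ∈ Sup e (1 - e) := Sup.mono heε.le (by linarith) hb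
    obtain ⟨h1, hh1, hh1e⟩ := displ_exists_10188 Dy.zero Dy.one he hp he0 (by linarith)
      (by linarith)
    have hz : max q (h1 (1 - e)) < 1 := by
      refine max_lt (by linarith) ?_
      have := hh1.1.1 (show (1 : ℝ) - e < 1 by linarith)
      rwa [hh1.2 1 (Or.inr le_rfl)] at this
    obtain ⟨w, hw, hw1, hw2⟩ := Dy.exists_between hz
    obtain ⟨h2, hh2, hh2q⟩ := displ_exists_10188 hp Dy.one hq hw hq1
      ((le_max_left _ _).trans_lt hw1) hw2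
    have hp0 : (0 : ℝ) ≤ p := by linarith
    have hh2' : h2 ∈ Sup 0 1 := Sup.mono hp0 le_rfl hh2
    set h := h2⁻¹ * h1 with hh
    have hhS : h ∈ Sup 0 1 := (Sup 0 1).mul_mem ((Sup 0 1).inv_mem hh2') hh1
    have hhe : h e = p := by
      rw [hh, Equiv.Perm.mul_apply, hh1e]
      exact ((Sup p 1).inv_mem hh2).2 p (Or.inl le_rfl)
    have hhe' : h (1 - e) ≤ q := by
      rw [hh, Equiv.Perm.mul_apply]
      have h3 : h2⁻¹ (h1 (1 - e)) ≤ h2⁻¹ w :=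
        (PLH.inv_mem hh2.1).1.monotone ((le_max_right _ _).trans hw1.le)
      rwa [← hh2q, inv_left] at h3
    have hlow : ∀ n : ℕ, u2 ≤ (h ^ (n + 1)) e := by
      intro n
      induction n with
      | zero => rw [zero_add, pow_one, hhe]; exact hp1.le
      | succ n ih =>
        rw [pow_succ', Equiv.Perm.mul_apply]
        have h3 : h e ≤ h ((h ^ (n + 1)) e) := hhS.1.1.monotone (heu.le.trans ih)
        rw [hhe] at h3
        exact hp1.le.trans h3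
    have hupp : ∀ n : ℕ, (h ^ (n + 1)) (1 - e) ≤ v2 := by
      intro n
      induction n with
      | zero => rw [zero_add, pow_one]; exact hhe'.trans hq2.le
      | succ n ih =>
        rw [pow_succ', Equiv.Perm.mul_apply]
        have h3 : h ((h ^ (n + 1)) (1 - e)) ≤ h (1 - e) :=
          hhS.1.1.monotone (ih.trans (by linarith))
        exact h3.trans (hhe'.trans hq2.le)
    obtain ⟨n, hn, hnD⟩ := hN h⁻¹ ((Sup 0 1).inv_mem hhS) b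
      (Sup.mono he0.le (by linarith) hb') hbD
    apply hnD
    apply hcore
    obtain ⟨m, hm⟩ := Nat.exists_eq_add_of_le hn
    rw [add_comm] at hm
    have e1 : ((h⁻¹) ^ n)⁻¹ * b * (h⁻¹) ^ n = h ^ n * b * (h ^ n)⁻¹ := by
      rw [inv_pow, inv_inv]
    rw [e1, hm]
    exact Sup.mono (hlow m) (hupp m) (conj_sup (PLH.pow_mem hhS.1 (m + 1)) hb')
  -- normality
  intro g hg x hx
  have h1 : g * x * g⁻¹ * x⁻¹ ∈ ⁅Sup 0 1, Sup 0 1⁆ := by
    have := Subgroup.commutator_mem_commutator hg (hD hx)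
    rwa [commutatorElement_def] at this
  obtain ⟨ε, hε, hm⟩ := exists_Sup_10658 (comm_le_10658 h1)
  have h2 := D.mul_mem (hspread ε hε _ hm) hx
  rwa [inv_mul_cancel_right] at h2

end Q31.BF
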