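import Mathlib
import Pool.Agent.Q31.BF.Main

/-! # Thompson's group `F` and boomerang subgroups: definitions and the final statement -/

set_option autoImplicit false

namespace Q31.BF

/-- dyadic rational numbers -/
def Dyadic (x : ℝ) : Prop := ∃ (m : ℤ) (e : ℕ), x = m / 2 ^ e

/-- `σ` is an orientation preserving piecewise linear homeomorphism of `[0, 1]` (extended by the
identity to a permutation of `ℝ`) with finitely many breakpoints, all of them dyadic rationals, and
with all slopes integer powers of `2`. -/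
def IsThompson (σ : Equiv.Perm ℝ) : Prop :=
  (∀ x, x ∉ Set.Icc (0 : ℝ) 1 → σ x = x) ∧ StrictMono σ ∧
    ∃ (n : ℕ) (a : ℕ → ℝ) (k : ℕ → ℤ) (c : ℕ → ℝ), a 0 = 0 ∧ a n = 1 ∧
      (∀ i < n, a i < a (i + 1)) ∧ (∀ i ≤ n, Dyadic (a i)) ∧
      ∀ i < n, ∀ x ∈ Set.Icc (a i) (a (i + 1)), σ x = (2 : ℝ) ^ (k i) * x + c i

open Pool.Agent.Helper283 Pool.Agent.Helper283.PL in
theorem isThompson_iff (σ : Equiv.Perm ℝ) : IsThompson σ ↔ σ ∈ Sup 0 1 := by
  constructor
  · rintro ⟨hout, hmono, n, a, k, c, h0, h1, hlt, hdy, hx⟩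
    have hσ0 : σ 0 = 0 := by
      have hge : 0 ≤ σ 0 := by
        by_contra hc
        push Not at hc
        have h2 : σ (σ 0) = σ 0 := hout _ (fun h => absurd h.1 (not_le.2 hc))
        have h3 := σ.injective h2
        rw [h3] at hc
        exact lt_irrefl _ hc
      rcases hge.lt_or_eq with h | h
      · exfalso
        obtain ⟨y, hy⟩ := σ.surjective 0
        rcases lt_or_ge y 0 with h2 | h2
        · rw [hout y (fun h => absurd h.1 (not_le.2 h2))] at hy
          rw [hy] at h2
          exact lt_irrefl _ h2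
        · have h3 := hmono.monotone h2
          rw [hy] at h3
          exact absurd h (not_lt.2 h3)
      · exact h.symm
    have hσ1 : σ 1 = 1 := by
      have hge : σ 1 ≤ 1 := by
        by_contra hc
        push Not at hc
        have h2 : σ (σ 1) = σ 1 := hout _ (fun h => absurd h.2 (not_le.2 hc))
        have h3 := σ.injective h2
        rw [h3] at hc
        exact lt_irrefl _ hc
      rcases hge.lt_or_eq with h | h
      · exfalso
        obtain ⟨y, hy⟩ := σ.surjective 1
        rcases lt_or_ge 1 y with h2 | h2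
        · rw [hout y (fun h => absurd h.2 (not_le.2 h2))] at hy
          rw [hy] at h2
          exact lt_irrefl _ h2
        · have h3 := hmono.monotone h2
          rw [hy] at h3
          exact absurd h (not_lt.2 h3)
      · exact h
    have hval : ∀ i ≤ n, Dy (σ (a i)) := by
      intro i
      induction i with
      | zero => intro _; rw [h0, hσ0]; exact Dy.zero
      | succ i ih =>
        intro hi
        have h2 := hx i (by omega) (a i) ⟨le_rfl, (hlt i (by omega)).le⟩
        have h3 := hx i (by omega) (a (i + 1)) ⟨(hlt i (by omega)).le, le_rfl⟩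
        have h4 : σ (a (i + 1)) = σ (a i) + (2 : ℝ) ^ (k i) * (a (i + 1) - a i) := by
          rw [h2, h3]; ring
        rw [h4]
        exact (ih (by omega)).add ((Dy.zpow _).mul
          (Dy.sub (hdy (i + 1) (by omega)) (hdy i (by omega))))
    refine V_sub_Sup_10609 σ ⟨?_, n, a, k, c, h0, h1, hlt, hdy, ?_, ?_⟩ (hmono.strictMonoOn _)
    · intro x hx'
      by_cases h : x = 1
      · rw [h, hσ1]
      · refine hout x (fun h2 => hx' ⟨h2.1, lt_of_le_of_ne h2.2 h⟩)
    · intro i hi
      have h2 := hx i hi (a i) ⟨le_rfl, (hlt i hi).le⟩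
      have h3 : c i = σ (a i) - (2 : ℝ) ^ (k i) * a i := by rw [h2]; ring
      show Dy (c i)
      rw [h3]
      exact Dy.sub (hval i hi.le) ((Dy.zpow _).mul (hdy i hi.le))
    · intro i hi x hx'
      exact hx i hi x ⟨hx'.1, hx'.2.le⟩
  · intro hσ
    obtain ⟨n, a, k, c, h0, h1, hlt, hdy, hdc, hx⟩ := part_all_10609 σ hσ.1.2
    refine ⟨fun x hx' => ?_, hσ.1.1, n, a, k, c, h0, h1, hlt, hdy, ?_⟩
    · apply hσ.2
      by_contra hc
      push Not at hc
      exact hx' ⟨hc.1.le, hc.2.le⟩
    · intro i hi x hx'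
      have hcl : IsClosed {x : ℝ | σ x = (2 : ℝ) ^ (k i) * x + c i} :=
        isClosed_eq (PLf.cont hσ.1.2) (by fun_prop)
      have hsub : Set.Ico (a i) (a (i + 1)) ⊆ {x : ℝ | σ x = (2 : ℝ) ^ (k i) * x + c i} :=
        fun x hx' => hx i hi x hx'
      have h2 := closure_minimal hsub hcl
      rw [closure_Ico (hlt i hi).ne] at h2
      exact h2 hx'

/-- **Thompson's group `F`**: the group, under composition, of the orientation preserving piecewise
linear homeomorphisms of `[0, 1]` (extended by the identity to `ℝ`) with finitely many breakpoints,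
all of them dyadic rationals, and with all slopes integer powers of `2`. -/
def ThompsonF : Subgroup (Equiv.Perm ℝ) where
  carrier := {σ | IsThompson σ}
  mul_mem' := fun {a b} ha hb => (isThompson_iff _).2
    (mul_mem ((isThompson_iff a).1 ha) ((isThompson_iff b).1 hb))
  one_mem' := (isThompson_iff _).2 (one_mem _)
  inv_mem' := fun {a} ha => (isThompson_iff _).2 (inv_mem ((isThompson_iff a).1 ha))

/-- `γ` is a recurrent direction for `Δ`: for all finite `A ⊆ Δ` and `B ⊆ Γ ∖ Δ` there is `n ≥ 1`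
such that `γ ^ n Δ γ ^ (-n)` contains `A` and is disjoint from `B`. -/
def IsRecurrentDirection {Γ : Type*} [Group Γ] (Δ : Subgroup Γ) (γ : Γ) : Prop :=
  ∀ A B : Set Γ, A.Finite → B.Finite → A ⊆ (Δ : Set Γ) → Disjoint B (Δ : Set Γ) →
    ∃ n : ℕ, 1 ≤ n ∧ A ⊆ (Δ.map (MulAut.conj (γ ^ n)).toMonoidHom : Subgroup Γ) ∧
      Disjoint B ((Δ.map (MulAut.conj (γ ^ n)).toMonoidHom : Subgroup Γ) : Set Γ)

/-- `Δ` is a boomerang subgroup: every element of the group is a recurrent direction for `Δ`. -/
def IsBoomerang {Γ : Type*} [Group Γ] (Δ : Subgroup Γ) : Prop :=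
  ∀ γ : Γ, IsRecurrentDirection Δ γ

theorem mem_conj {Γ : Type*} [Group Γ] (Δ : Subgroup Γ) (g x : Γ) :
    x ∈ Δ.map (MulAut.conj g).toMonoidHom ↔ g⁻¹ * x * g ∈ Δ := by
  rw [Subgroup.mem_map]
  constructor
  · rintro ⟨y, hy, rfl⟩
    have : g⁻¹ * ((MulAut.conj g).toMonoidHom y) * g = y := by
      show g⁻¹ * (g * y * g⁻¹) * g = y
      group
    rw [this]
    exact hy
  · intro h
    refine ⟨_, h, ?_⟩
    show g * (g⁻¹ * x * g) * g⁻¹ = x
    group

theorem boomerang_iff (Δ : Subgroup ThompsonF) : IsBoomerang Δ ↔ Δ.Normal := by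
  constructor
  · intro h
    set D : Subgroup (Equiv.Perm ℝ) := Δ.map ThompsonF.subtype with hD
    have hmem : ∀ x : ThompsonF, (x : Equiv.Perm ℝ) ∈ D ↔ x ∈ Δ := by
      intro x
      rw [hD, Subgroup.mem_map]
      constructor
      · rintro ⟨y, hy, hxy⟩
        have : y = x := Subtype.ext hxy
        rwa [← this]
      · intro hx
        exact ⟨x, hx, rfl⟩
    have hle : D ≤ Pool.Agent.Helper283.PL.Sup 0 1 := by
      rintro _ ⟨y, -, rfl⟩
      exact (isThompson_iff _).1 y.2
    have key := main_perm D hle ?_ ?_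
    · refine ⟨fun x hx g => ?_⟩
      have := key g ((isThompson_iff _).1 g.2) x ((hmem x).2 hx)
      rw [← hmem]
      exact this
    · intro γ hγ a ha
      obtain ⟨a', ha', rfl⟩ := Subgroup.mem_map.1 ha
      obtain ⟨n, hn, hA, -⟩ := h ⟨γ, (isThompson_iff γ).2 hγ⟩ {a'} ∅ (Set.finite_singleton _)
        Set.finite_empty (Set.singleton_subset_iff.2 ha') (Set.empty_disjoint _)
      refine ⟨n, hn, ?_⟩
      have h1 := (mem_conj Δ _ _).1 (hA (Set.mem_singleton a'))
      exact (hmem _).2 h1
    · intro γ hγ b hb hbD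
      have hb' : (⟨b, (isThompson_iff b).2 hb⟩ : ThompsonF) ∉ Δ := fun hc => hbD ((hmem _).2 hc)
      obtain ⟨n, hn, -, hB⟩ := h ⟨γ, (isThompson_iff γ).2 hγ⟩ ∅
        {(⟨b, (isThompson_iff b).2 hb⟩ : ThompsonF)} Set.finite_empty (Set.finite_singleton _)
        (Set.empty_subset _) (Set.disjoint_singleton_left.2 hb')
      refine ⟨n, hn, fun hc => ?_⟩
      have h1 := Set.disjoint_singleton_left.1 hB
      exact h1 ((mem_conj Δ _ _).2 ((hmem _).1 hc))
  · intro h γ A B _ _ hA hB
    have e : Δ.map (MulAut.conj (γ ^ 1)).toMonoidHom = Δ := by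
      ext x
      rw [mem_conj]
      constructor
      · intro hx
        have := h.conj_mem _ hx (γ ^ 1)
        rwa [show γ ^ 1 * ((γ ^ 1)⁻¹ * x * γ ^ 1) * (γ ^ 1)⁻¹ = x by group] at this
      · intro hx
        have := h.conj_mem _ hx (γ ^ 1)⁻¹
        rwa [inv_inv] at this
    refine ⟨1, le_rfl, ?_, ?_⟩
    · rw [e]; exact hA
    · rw [e]; exact hB

end Q31.BF
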